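import Mathlib
import Pool.Agent.H933.LL.Stm

/-!
# P_prod: the product of the operators of two disjoint discs is zero (helper122)
-/

set_option autoImplicit false
set_option linter.unusedSectionVars false

open MeasureTheory Metric
open scoped Real

namespace Pool.Agent.H122.LL

open Pool.Agent.H933.LL

section

variable {X : Type} [NormedAddCommGroup X] [NormedSpace ℂ X] [CompleteSpace X]

/-- almost all points of the disc are in the resolvent set -/
theorem ae_res (T : X →L[ℂ] X) (l : ℂ) (r : ℝ) (h : volume (spectrum ℂ T ∩ ball l r) = 0) :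
    ∀ᵐ z ∂(volume.restrict (ball l r)), z ∈ resolventSet ℂ T := by
  rw [ae_restrict_iff' measurableSet_ball, ae_iff]
  refine measure_mono_null ?_ h
  intro z hz
  simp only [Classical.not_imp, Set.mem_ofPred_eq] at hz
  exact ⟨hz.2, hz.1⟩

/-- the resolvent is almost everywhere strongly measurable on the disc -/
theorem aesm_res (T : X →L[ℂ] X) (l : ℂ) (r : ℝ) (h : volume (spectrum ℂ T ∩ ball l r) = 0) :
    AEStronglyMeasurable (fun z => resolvent T z) (volume.restrict (ball l r)) := by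
  have ho : IsOpen (resolventSet ℂ T) := spectrum.isOpen_resolventSet T
  have h1 : ContinuousOn (fun z => resolvent T z) (ball l r ∩ resolventSet ℂ T) :=
    fun z hz => (spectrum.hasDerivAt_resolvent_const_left hz.2).continuousAt.continuousWithinAt
  have h2 := h1.aestronglyMeasurable (μ := volume) (measurableSet_ball.inter ho.measurableSet)
  have h3 : (ball l r ∩ resolventSet ℂ T : Set ℂ) =ᵐ[volume] (ball l r : Set ℂ) := by
    refine inter_ae_eq_left_of_ae_eq_univ_of_sub ?_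
    exact h
  rwa [Measure.restrict_congr_set h3] at h2
where
  inter_ae_eq_left_of_ae_eq_univ_of_sub {A B : Set ℂ} (h : volume (Bᶜ ∩ A) = 0) :
      (A ∩ B : Set ℂ) =ᵐ[volume] A := by
    rw [ae_eq_set]
    constructor
    · rw [Set.sdiff_eq_empty.2 Set.inter_subset_left]
      exact measure_empty
    · rw [Set.sdiff_self_inter, Set.sdiff_eq, Set.inter_comm]
      exact h

/-- the resolvent identity -/
theorem res_id (T : X →L[ℂ] X) (z w : ℂ) (hz : z ∈ resolventSet ℂ T) (hw : w ∈ resolventSet ℂ T)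
    (hne : z ≠ w) :
    resolvent T z * resolvent T w = (z - w)⁻¹ • (resolvent T w - resolvent T z) := by
  have h1 : resolvent T z * (algebraMap ℂ (X →L[ℂ] X) z - T) = 1 := Ring.inverse_mul_cancel _ hz
  have h2 : (algebraMap ℂ (X →L[ℂ] X) w - T) * resolvent T w = 1 := Ring.mul_inverse_cancel _ hw
  have h3 : resolvent T w - resolvent T z = (z - w) • (resolvent T z * resolvent T w) := by
    calc resolvent T w - resolvent T z
        = (resolvent T z * (algebraMap ℂ (X →L[ℂ] X) z - T)) * resolvent T w -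
          resolvent T z * ((algebraMap ℂ (X →L[ℂ] X) w - T) * resolvent T w) := by
          rw [h1, h2, one_mul, mul_one]
      _ = resolvent T z * (algebraMap ℂ (X →L[ℂ] X) z - algebraMap ℂ (X →L[ℂ] X) w) *
          resolvent T w := by
          noncomm_ring
      _ = (z - w) • (resolvent T z * resolvent T w) := by
          rw [← map_sub, Algebra.algebraMap_eq_smul_one, mul_smul_comm, mul_one, smul_mul_assoc]
  rw [h3, smul_smul, inv_mul_cancel₀ (sub_ne_zero.2 hne), one_smul]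

theorem int_smul (T : X →L[ℂ] X) (l : ℂ) (r : ℝ) (h : ℂ → ℂ)
    (hσ : volume (spectrum ℂ T ∩ ball l r) = 0) (hA : Adm T l r h) :
    IntegrableOn (fun z => h z • resolvent T z) (ball l r) := by
  have h1 : AEStronglyMeasurable (fun z => h z • resolvent T z) (volume.restrict (ball l r)) :=
    hA.meas.smul (aesm_res T l r hσ)
  refine Integrable.mono hA.int h1 ?_
  filter_upwards with z
  rw [norm_smul, norm_mul, norm_norm, norm_norm]

end

theorem p_prod : P_prod := by
  intro X _ _ _ T l₁ l₂ r₁ r₂ h₁ h₂ hr₁ hr₂ hd hσ₁ hσ₂ hA₁ hA₂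
  set μ₁ := (volume : Measure ℂ).restrict (ball l₁ r₁) with hμ₁
  set μ₂ := (volume : Measure ℂ).restrict (ball l₂ r₂) with hμ₂
  obtain ⟨δ, hδ⟩ : ∃ δ : ℝ, δ = ‖l₁ - l₂‖ - r₁ - r₂ := ⟨_, rfl⟩
  have hδ0 : 0 < δ := by rw [hδ]; linarith
  have hsep : ∀ z ∈ ball l₁ r₁, ∀ w ∈ ball l₂ r₂, δ ≤ ‖z - w‖ := by
    intro z hz w hw
    rw [mem_ball, dist_eq_norm] at hz hw
    have h1 : ‖l₁ - l₂‖ ≤ ‖l₁ - z‖ + ‖z - w‖ + ‖w - l₂‖ := by
      have e : l₁ - l₂ = (l₁ - z) + (z - w) + (w - l₂) := by ring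
      rw [e]
      exact (norm_add_le _ _).trans (add_le_add (norm_add_le _ _) le_rfl)
    rw [norm_sub_rev l₁ z] at h1
    rw [hδ]
    linarith
  have hne : ∀ z ∈ ball l₁ r₁, ∀ w ∈ ball l₂ r₂, z ≠ w := by
    intro z hz w hw h
    have h1 := hsep z hz w hw
    rw [h, sub_self, norm_zero] at h1
    linarith
  have hI₁ : Integrable (fun z => h₁ z • resolvent T z) μ₁ := int_smul T l₁ r₁ h₁ hσ₁ hA₁
  have hI₂ : Integrable (fun z => h₂ z • resolvent T z) μ₂ := int_smul T l₂ r₂ h₂ hσ₂ hA₂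
  have hball₁ : ∀ᵐ z ∂μ₁, z ∈ ball l₁ r₁ := ae_restrict_mem measurableSet_ball
  have hball₂ : ∀ᵐ z ∂μ₂, z ∈ ball l₂ r₂ := ae_restrict_mem measurableSet_ball
  -- the inner integral
  have hinner : ∀ z ∈ ball l₁ r₁, z ∈ resolventSet ℂ T →
      resolvent T z * Op T l₂ r₂ h₂ = ∫ w, (z - w)⁻¹ • (h₂ w • resolvent T w) ∂μ₂ := by
    intro z hz hzr
    have e1 : resolvent T z * Op T l₂ r₂ h₂ =
        ∫ w, resolvent T z * (h₂ w • resolvent T w) ∂μ₂ := by
      have := (ContinuousLinearMap.mul ℂ (X →L[ℂ] X) (resolvent T z)).integral_comp_comm hI₂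
      exact this.symm
    rw [e1]
    have hm : AEStronglyMeasurable (fun w : ℂ => (z - w)⁻¹) μ₂ :=
      (measurable_const.sub measurable_id).inv.aestronglyMeasurable
    have hb : ∀ᵐ w ∂μ₂, ‖(z - w)⁻¹‖ ≤ δ⁻¹ := by
      filter_upwards [hball₂] with w hw
      rw [norm_inv]
      exact inv_anti₀ hδ0 (hsep z hz w hw)
    have hi1 : Integrable (fun w => (z - w)⁻¹ • (h₂ w • resolvent T w)) μ₂ :=
      hI₂.bdd_smul δ⁻¹ hm hb
    have hi2 : Integrable (fun w => h₂ w * (z - w)⁻¹) μ₂ := by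
      have := (hA₂.hint : Integrable h₂ μ₂).bdd_mul hm hb
      refine this.congr ?_
      filter_upwards with w
      exact mul_comm _ _
    have e2 : ∫ w, resolvent T z * (h₂ w • resolvent T w) ∂μ₂ =
        ∫ w, ((z - w)⁻¹ • (h₂ w • resolvent T w) - (h₂ w * (z - w)⁻¹) • resolvent T z) ∂μ₂ := by
      apply integral_congr_ae
      filter_upwards [hball₂, ae_res T l₂ r₂ hσ₂] with w hw hwr
      rw [mul_smul_comm, res_id T z w hzr hwr (hne z hz w hw), smul_smul, smul_sub, smul_smul,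
        mul_comm (h₂ w)]
    rw [e2, integral_sub hi1 (hi2.smul_const _), integral_smul_const]
    have e3 : ∫ w, h₂ w * (z - w)⁻¹ ∂μ₂ = 0 := by
      apply hA₂.orth (fun w => (z - w)⁻¹)
      · intro w hw
        apply DifferentiableAt.differentiableWithinAt
        exact ((differentiableAt_const z).sub differentiableAt_id).inv
          (sub_ne_zero.2 (hne z hz w hw))
      · refine ⟨δ⁻¹, fun w hw => ?_⟩
        rw [norm_inv]
        exact inv_anti₀ hδ0 (hsep z hz w hw)
    rw [e3, zero_smul, sub_zero]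
  -- the product
  have e1 : Op T l₁ r₁ h₁ * Op T l₂ r₂ h₂ = ∫ z, (h₁ z • resolvent T z) * Op T l₂ r₂ h₂ ∂μ₁ := by
    have := ((ContinuousLinearMap.mul ℂ (X →L[ℂ] X)).flip (Op T l₂ r₂ h₂)).integral_comp_comm hI₁
    exact this.symm
  have e2 : ∫ z, (h₁ z • resolvent T z) * Op T l₂ r₂ h₂ ∂μ₁ =
      ∫ z, ∫ w, (h₁ z * (z - w)⁻¹) • (h₂ w • resolvent T w) ∂μ₂ ∂μ₁ := by
    apply integral_congr_ae
    filter_upwards [hball₁, ae_res T l₁ r₁ hσ₁] with z hz hzr
    rw [smul_mul_assoc, hinner z hz hzr, ← integral_smul]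
    apply integral_congr_ae
    filter_upwards with w
    rw [smul_smul]
  have hint : Integrable (Function.uncurry
      (fun z w => (h₁ z * (z - w)⁻¹) • (h₂ w • resolvent T w))) (μ₁.prod μ₂) := by
    have hm1 : AEStronglyMeasurable (fun p : ℂ × ℂ => h₁ p.1) (μ₁.prod μ₂) := hA₁.meas.comp_fst
    have hm2 : AEStronglyMeasurable (fun p : ℂ × ℂ => h₂ p.2 • resolvent T p.2) (μ₁.prod μ₂) :=
      hI₂.aestronglyMeasurable.comp_snd
    have hm3 : AEStronglyMeasurable (fun p : ℂ × ℂ => (p.1 - p.2)⁻¹) (μ₁.prod μ₂) :=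
      (measurable_fst.sub measurable_snd).inv.aestronglyMeasurable
    have hdom : Integrable (fun p : ℂ × ℂ => (δ⁻¹ * ‖h₁ p.1‖) * (‖h₂ p.2‖ * ‖resolvent T p.2‖))
        (μ₁.prod μ₂) :=
      Integrable.mul_prod ((hA₁.hint : Integrable h₁ μ₁).norm.const_mul δ⁻¹) hA₂.int
    refine Integrable.mono hdom ((hm1.mul hm3).smul hm2) ?_
    have hmem : ∀ᵐ p : ℂ × ℂ ∂(μ₁.prod μ₂), p ∈ ball l₁ r₁ ×ˢ ball l₂ r₂ := by
      rw [hμ₁, hμ₂, Measure.prod_restrict]
      exact ae_restrict_mem (measurableSet_ball.prod measurableSet_ball)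
    filter_upwards [hmem] with p hp
    have h3 : ‖(p.1 - p.2)⁻¹‖ ≤ δ⁻¹ := by
      rw [norm_inv]
      exact inv_anti₀ hδ0 (hsep p.1 hp.1 p.2 hp.2)
    have h4 : (0 : ℝ) ≤ δ⁻¹ := by positivity
    show ‖(h₁ p.1 * (p.1 - p.2)⁻¹) • (h₂ p.2 • resolvent T p.2)‖ ≤ _
    rw [norm_smul, norm_smul, norm_mul, norm_mul, norm_mul, norm_mul, norm_norm, norm_norm,
      norm_norm, Real.norm_of_nonneg h4, mul_comm ‖h₁ p.1‖]
    gcongr
  rw [e1, e2, integral_integral_swap hint]
  have e3 : ∀ᵐ w ∂μ₂, ∫ z, (h₁ z * (z - w)⁻¹) • (h₂ w • resolvent T w) ∂μ₁ = 0 := by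
    filter_upwards [hball₂] with w hw
    rw [integral_smul_const]
    have e4 : ∫ z, h₁ z * (z - w)⁻¹ ∂μ₁ = 0 := by
      apply hA₁.orth (fun z => (z - w)⁻¹)
      · intro z hz
        apply DifferentiableAt.differentiableWithinAt
        exact (differentiableAt_id.sub (differentiableAt_const w)).inv
          (sub_ne_zero.2 (hne z hz w hw))
      · refine ⟨δ⁻¹, fun z hz => ?_⟩
        rw [norm_inv]
        exact inv_anti₀ hδ0 (hsep z hz w hw)
    rw [e4, zero_smul]
  rw [integral_congr_ae e3, integral_zero]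

end Pool.Agent.H122.LL
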